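import Mathlib

/-!
The function `phi` which defines the grammic congruence.
-/

namespace Pool.Agent.Lib.MP_be768e_al

variable {n : ℕ}

/-- `phi w p q` is the largest length of a weakly increasing scattered subsequence of the word `w`
all of whose letters lie in the interval `[p, q]`. -/
noncomputable def phi (w : List (Fin n)) (p q : Fin n) : ℕ :=
  sSup {k : ℕ | ∃ s : List (Fin n), s.Sublist w ∧ s.Pairwise (· ≤ ·) ∧
    (∀ x ∈ s, p ≤ x ∧ x ≤ q) ∧ s.length = k}

end Pool.Agent.Lib.MP_be768e_al
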