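import Mathlib
import Pool.Agent.Lib.MP_be768e_al.PhiDef

/-!
The function `phi` of the grammic monoid and its basic properties.
-/

namespace Pool.Agent.Lib.MP_be768e_al

variable {n : ℕ}

theorem le_phi {w s : List (Fin n)} {p q : Fin n} (h1 : s.Sublist w)
    (h2 : s.Pairwise (· ≤ ·)) (h3 : ∀ x ∈ s, p ≤ x ∧ x ≤ q) : s.length ≤ phi w p q := by
  apply le_csSup
  · refine ⟨w.length, ?_⟩
    rintro k ⟨s', h, -, -, rfl⟩
    exact h.length_le
  · exact ⟨s, h1, h2, h3, rfl⟩

theorem exists_phi (w : List (Fin n)) (p q : Fin n) :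
    ∃ s : List (Fin n), s.Sublist w ∧ s.Pairwise (· ≤ ·) ∧
      (∀ x ∈ s, p ≤ x ∧ x ≤ q) ∧ s.length = phi w p q := by
  have hne : {k : ℕ | ∃ s : List (Fin n), s.Sublist w ∧ s.Pairwise (· ≤ ·) ∧
    (∀ x ∈ s, p ≤ x ∧ x ≤ q) ∧ s.length = k}.Nonempty :=
    ⟨0, [], List.nil_sublist _, List.Pairwise.nil, by simp, rfl⟩
  have hbd : BddAbove {k : ℕ | ∃ s : List (Fin n), s.Sublist w ∧ s.Pairwise (· ≤ ·) ∧
    (∀ x ∈ s, p ≤ x ∧ x ≤ q) ∧ s.length = k} := by
    refine ⟨w.length, ?_⟩
    rintro k ⟨s', h, -, -, rfl⟩
    exact h.length_le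
  exact Nat.sSup_mem hne hbd

theorem phi_mono {w w' : List (Fin n)} {p q p' q' : Fin n} (hw : w.Sublist w')
    (hp : p' ≤ p) (hq : q ≤ q') : phi w p q ≤ phi w' p' q' := by
  obtain ⟨s, h1, h2, h3, h4⟩ := exists_phi w p q
  rw [← h4]
  exact le_phi (h1.trans hw) h2 (fun x hx => ⟨hp.trans (h3 x hx).1, (h3 x hx).2.trans hq⟩)

@[simp] theorem phi_nil (p q : Fin n) : phi [] p q = 0 := by
  obtain ⟨s, h1, h2, h3, h4⟩ := exists_phi [] p q
  rw [← h4]
  simpa using h1

/-- Appending one letter. -/
theorem phi_append_singleton (w : List (Fin n)) (x p q : Fin n) :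
    phi (w ++ [x]) p q =
      if p ≤ x ∧ x ≤ q then max (phi w p q) (phi w p x + 1) else phi w p q := by
  have hge : phi w p q ≤ phi (w ++ [x]) p q :=
    phi_mono (List.sublist_append_left _ _) le_rfl le_rfl
  obtain ⟨s, h1, h2, h3, h4⟩ := exists_phi (w ++ [x]) p q
  have hsub : s.Sublist w ∨ ∃ s', s = s' ++ [x] ∧ s'.Sublist w := by
    rw [List.sublist_append_iff] at h1
    obtain ⟨l1, l2, rfl, hl1, hl2⟩ := h1
    rcases List.sublist_singleton.mp hl2 with h | h
    · left; subst h; simpa using hl1
    · right; subst h; exact ⟨l1, rfl, hl1⟩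
  split_ifs with hx
  · apply le_antisymm
    · rw [← h4]
      rcases hsub with h | ⟨s', rfl, hs'⟩
      · exact le_max_of_le_left (le_phi h h2 h3)
      · apply le_max_of_le_right
        rw [List.length_append, List.length_singleton]
        apply Nat.succ_le_succ
        rw [List.pairwise_append] at h2
        apply le_phi hs' h2.1
        intro y hy
        exact ⟨(h3 y (by simp [hy])).1, h2.2.2 y hy x (by simp)⟩
    · apply max_le hge
      obtain ⟨t, g1, g2, g3, g4⟩ := exists_phi w p x
      rw [← g4]
      have : (t ++ [x]).length ≤ phi (w ++ [x]) p q := by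
        apply le_phi (g1.append (List.Sublist.refl _))
        · rw [List.pairwise_append]
          refine ⟨g2, by simp, ?_⟩
          intro y hy z hz
          rw [List.mem_singleton] at hz
          subst hz
          exact (g3 y hy).2
        · intro y hy
          rw [List.mem_append, List.mem_singleton] at hy
          rcases hy with hy | rfl
          · exact ⟨(g3 y hy).1, (g3 y hy).2.trans hx.2⟩
          · exact hx
      simpa using this
  · apply le_antisymm _ hge
    rw [← h4]
    rcases hsub with h | ⟨s', rfl, hs'⟩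
    · exact le_phi h h2 h3
    · exact absurd (h3 x (by simp)) hx

theorem phi_append_ge (u v : List (Fin n)) {p r q : Fin n} (hpr : p ≤ r) (hrq : r ≤ q) :
    phi u p r + phi v r q ≤ phi (u ++ v) p q := by
  obtain ⟨s, h1, h2, h3, h4⟩ := exists_phi u p r
  obtain ⟨t, g1, g2, g3, g4⟩ := exists_phi v r q
  rw [← h4, ← g4, ← List.length_append]
  apply le_phi (h1.append g1)
  · rw [List.pairwise_append]
    exact ⟨h2, g2, fun a ha b hb => (h3 a ha).2.trans (g3 b hb).1⟩
  · intro x hx
    rw [List.mem_append] at hx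
    rcases hx with hx | hx
    · exact ⟨(h3 x hx).1, (h3 x hx).2.trans hrq⟩
    · exact ⟨hpr.trans (g3 x hx).1, (g3 x hx).2⟩

theorem phi_append_le (u v : List (Fin n)) {p q : Fin n} (hpq : p ≤ q) :
    ∃ r, p ≤ r ∧ r ≤ q ∧ phi (u ++ v) p q ≤ phi u p r + phi v r q := by
  induction v using List.reverseRecOn generalizing q with
  | nil => exact ⟨q, hpq, le_rfl, by simp⟩
  | append_singleton v x ih =>
    rw [← List.append_assoc, phi_append_singleton]
    have hbase : ∃ r, p ≤ r ∧ r ≤ q ∧ phi (u ++ v) p q ≤ phi u p r + phi (v ++ [x]) r q := by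
      obtain ⟨r, h1, h2, h3⟩ := ih hpq
      exact ⟨r, h1, h2, h3.trans (Nat.add_le_add_left
        (phi_mono (List.sublist_append_left _ _) le_rfl le_rfl) _)⟩
    split_ifs with hx
    · rcases le_total (phi (u ++ v) p q) (phi (u ++ v) p x + 1) with h | h
      · rw [max_eq_right h]
        obtain ⟨r, h1, h2, h3⟩ := ih hx.1
        refine ⟨r, h1, h2.trans hx.2, ?_⟩
        rw [phi_append_singleton, if_pos ⟨h2, hx.2⟩]
        have := le_max_right (phi v r q) (phi v r x + 1)
        omega
      · rw [max_eq_left h]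
        exact hbase
    · exact hbase

theorem phi_self (w : List (Fin n)) (p : Fin n) : phi w p p = w.count p := by
  induction w using List.reverseRecOn with
  | nil => simp
  | append_singleton w x ih =>
    rw [phi_append_singleton, List.count_append, List.count_singleton]
    by_cases hx : x = p
    · subst hx
      simp [ih]
    · have : ¬ (p ≤ x ∧ x ≤ p) := fun h => hx (le_antisymm h.2 h.1)
      rw [if_neg this, ih]
      simp [hx]

/-- Splitting off the top letter. -/
theorem phi_split (w : List (Fin n)) {p q q' : Fin n} (hpq : p ≤ q) (hq : q'.val = q.val + 1) :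
    ∃ t : ℕ, phi w p q' ≤ phi (w.take t) p q + (w.drop t).count q' := by
  have hqq : q ≤ q' := by rw [Fin.le_def]; omega
  suffices h : ∃ u v, w = u ++ v ∧ phi w p q' ≤ phi u p q + v.count q' by
    obtain ⟨u, v, rfl, h⟩ := h
    exact ⟨u.length, by simpa using h⟩
  induction w using List.reverseRecOn with
  | nil => exact ⟨[], [], rfl, by simp⟩
  | append_singleton w x ih =>
    obtain ⟨u, v, huv, h⟩ := ih
    rw [phi_append_singleton]
    have hbase : ∃ u' v', w ++ [x] = u' ++ v' ∧ phi w p q' ≤ phi u' p q + v'.count q' := by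
      refine ⟨u, v ++ [x], by rw [huv, List.append_assoc], h.trans ?_⟩
      rw [List.count_append]; omega
    split_ifs with hx
    · by_cases hxq : x = q'
      · subst hxq
        refine ⟨u, v ++ [x], by rw [huv, List.append_assoc], ?_⟩
        rw [List.count_append, List.count_singleton_self]
        rw [max_le_iff]
        constructor <;> omega
      · rcases le_total (phi w p q') (phi w p x + 1) with h' | h'
        · rw [max_eq_right h']
          have hxq' : x ≤ q := by
            have h1 : x ≤ q' := hx.2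
            have h2 : x.val ≠ q'.val := fun h => hxq (Fin.ext h)
            rw [Fin.le_def] at h1 ⊢
            omega
          refine ⟨w ++ [x], [], by simp, ?_⟩
          rw [phi_append_singleton, if_pos ⟨hx.1, hxq'⟩]
          have := le_max_right (phi w p q) (phi w p x + 1)
          omega
        · rw [max_eq_left h']
          exact hbase
    · exact hbase

theorem phi_append_congr {u u' v v' : List (Fin n)}
    (h : ∀ p q : Fin n, p ≤ q → phi u p q = phi u' p q)
    (h' : ∀ p q : Fin n, p ≤ q → phi v p q = phi v' p q) (p q : Fin n) (hpq : p ≤ q) :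
    phi (u ++ v) p q = phi (u' ++ v') p q := by
  apply le_antisymm
  · obtain ⟨r, h1, h2, h3⟩ := phi_append_le u v hpq
    rw [h p r h1, h' r q h2] at h3
    exact h3.trans (phi_append_ge _ _ h1 h2)
  · obtain ⟨r, h1, h2, h3⟩ := phi_append_le u' v' hpq
    rw [← h p r h1, ← h' r q h2] at h3
    exact h3.trans (phi_append_ge _ _ h1 h2)

end Pool.Agent.Lib.MP_be768e_al
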