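import Mathlib
import Pool.Agent.Lib.MP_be768e_al.Phi

/-!
The combinatorial core: two classes of words inside one grammic class which are not linked by
sharing a first or a last letter.
-/

namespace Pool.Agent.Lib.MP_be768e_al

variable {n : ℕ}

/-- Number of letters `x` among the first `t` letters. -/
def P (w : List (Fin n)) (x : Fin n) (t : ℕ) : ℕ := (w.take t).count x

/-- Number of letters `x` after the first `t` letters. -/
def D (w : List (Fin n)) (x : Fin n) (t : ℕ) : ℕ := (w.drop t).count x

theorem P_add_D (w : List (Fin n)) (x : Fin n) (t : ℕ) : P w x t + D w x t = w.count x := by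
  unfold P D
  rw [← List.count_append, List.take_append_drop]

theorem P_mono (w : List (Fin n)) (x : Fin n) {s t : ℕ} (h : s ≤ t) : P w x s ≤ P w x t := by
  unfold P
  apply List.Sublist.count_le
  have : w.take s = (w.take t).take s := by rw [List.take_take, min_eq_left h]
  rw [this]
  exact List.take_sublist _ _

theorem D_anti (w : List (Fin n)) (x : Fin n) {s t : ℕ} (h : s ≤ t) : D w x t ≤ D w x s := by
  have h1 := P_add_D w x s
  have h2 := P_add_D w x t
  have h3 := P_mono w x h
  omega

theorem chain2 (w : List (Fin n)) {x y p q : Fin n} (h1 : p ≤ x) (h2 : x ≤ y) (h3 : y ≤ q)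
    (t : ℕ) : P w x t + D w y t ≤ phi w p q := by
  calc P w x t + D w y t = phi (w.take t) x x + phi (w.drop t) y y := by
        rw [phi_self, phi_self]; rfl
    _ ≤ phi (w.take t) x y + phi (w.drop t) y y :=
        Nat.add_le_add_right (phi_mono (List.Sublist.refl _) le_rfl h2) _
    _ ≤ phi (w.take t ++ w.drop t) x y := phi_append_ge _ _ h2 le_rfl
    _ = phi w x y := by rw [List.take_append_drop]
    _ ≤ phi w p q := phi_mono (List.Sublist.refl _) h1 h3

theorem take_chain (w : List (Fin n)) {x y z : Fin n} (h1 : x ≤ y) (h2 : y ≤ z) (t : ℕ) :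
    phi (w.take t) x y + D w z t ≤ phi w x z := by
  calc phi (w.take t) x y + D w z t = phi (w.take t) x y + phi (w.drop t) z z := by
        rw [phi_self]; rfl
    _ ≤ phi (w.take t) x z + phi (w.drop t) z z :=
        Nat.add_le_add_right (phi_mono (List.Sublist.refl _) le_rfl h2) _
    _ ≤ phi (w.take t ++ w.drop t) x z := phi_append_ge _ _ (h1.trans h2) le_rfl
    _ = phi w x z := by rw [List.take_append_drop]

theorem D_take (w : List (Fin n)) (x : Fin n) {s t : ℕ} (h : s ≤ t) :
    D (w.take t) x s + P w x s = P w x t := by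
  have h1 := P_add_D (w.take t) x s
  have h2 : P (w.take t) x s = P w x s := by
    unfold P; rw [List.take_take, min_eq_left h]
  have h3 : (w.take t).count x = P w x t := rfl
  omega

theorem P_take (w : List (Fin n)) (x : Fin n) {s t : ℕ} (h : s ≤ t) :
    P (w.take t) x s = P w x s := by
  unfold P; rw [List.take_take, min_eq_left h]

theorem chain3 (w : List (Fin n)) {x y z p q : Fin n} (h1 : p ≤ x) (h2 : x ≤ y) (h3 : y ≤ z)
    (h4 : z ≤ q) {t1 t2 : ℕ} (ht : t1 ≤ t2) :
    P w x t1 + (P w y t2 - P w y t1) + D w z t2 ≤ phi w p q := by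
  have e1 := take_chain w h2 h3 t2
  have e2 := chain2 (w.take t2) (le_refl x) h2 (le_refl y) t1
  rw [P_take w x ht] at e2
  have e3 := D_take w y ht
  have e4 : phi w x z ≤ phi w p q := phi_mono (List.Sublist.refl _) h1 h4
  omega

theorem chain4 (w : List (Fin n)) {x y z v p q : Fin n} (h1 : p ≤ x) (h2 : x ≤ y) (h3 : y ≤ z)
    (h4 : z ≤ v) (h5 : v ≤ q) {t1 t2 t3 : ℕ} (ht : t1 ≤ t2) (ht' : t2 ≤ t3) :
    P w x t1 + (P w y t2 - P w y t1) + (P w z t3 - P w z t2) + D w v t3 ≤ phi w p q := by
  have e1 := take_chain w (h2.trans h3) h4 t3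
  have e2 := chain3 (w.take t3) (le_refl x) h2 h3 (le_refl z) ht
  rw [P_take w x (ht.trans ht'), P_take w y ht', P_take w y (ht.trans ht')] at e2
  have e3 := D_take w z ht'
  have e4 : phi w x v ≤ phi w p q := phi_mono (List.Sublist.refl _) h1 h5
  omega

/-- Existence of an optimal split for two adjacent letters. -/
theorem exists_split2 (w : List (Fin n)) {p q : Fin n} (h : q.val = p.val + 1) :
    ∃ t, phi w p q ≤ P w p t + D w q t := by
  obtain ⟨t, ht⟩ := phi_split w (le_refl p) h
  refine ⟨t, ?_⟩
  rw [phi_self] at ht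
  exact ht

/-- Existence of an optimal split for three consecutive letters. -/
theorem exists_split3 (w : List (Fin n)) {p q r : Fin n} (h : q.val = p.val + 1)
    (h' : r.val = q.val + 1) :
    ∃ t1 t2, t1 ≤ t2 ∧ phi w p r ≤ P w p t1 + (P w q t2 - P w q t1) + D w r t2 := by
  have hpq : p ≤ q := by rw [Fin.le_def]; omega
  obtain ⟨t2, ht2⟩ := phi_split w hpq h'
  obtain ⟨t1, ht1⟩ := exists_split2 (w.take t2) h
  have e1 : (w.drop t2).count r = D w r t2 := rfl
  rcases le_total t1 t2 with h12 | h12
  · refine ⟨t1, t2, h12, ?_⟩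
    rw [P_take w p h12] at ht1
    have := D_take w q h12
    omega
  · refine ⟨t2, t2, le_rfl, ?_⟩
    have e2 : P (w.take t2) p t1 = P w p t2 := by
      unfold P; rw [List.take_take, min_eq_right h12]
    have e3 : D (w.take t2) q t1 = 0 := by
      unfold D
      rw [List.drop_eq_nil_of_le]
      · rfl
      · exact (List.length_take_le _ _).trans h12
    omega

/-- The numerical facts shared by all the words of the grammic class we study. -/
structure Facts (m : ℕ) (c0 c1 c2 c3 c4 : Fin n) (w : List (Fin n)) : Prop where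
  n0 : w.count c0 = m
  n1 : w.count c1 = m
  n2 : w.count c2 = 1
  n3 : w.count c3 = 3
  n4 : w.count c4 = m
  f01 : phi w c0 c1 = m + 1
  f02 : phi w c0 c2 = m + 1
  f03 : phi w c0 c3 = m + 1
  f12 : phi w c1 c2 = m
  f13 : phi w c1 c3 = m + 1
  f14 : phi w c1 c4 = m + 1
  f23 : phi w c2 c3 = 3
  f24 : phi w c2 c4 = m + 1
  f34 : phi w c3 c4 = m + 1
  big : ∀ x : Fin n, 5 ≤ x.val → w.count x = 0

section core

variable {m : ℕ} {c0 c1 c2 c3 c4 : Fin n} (h0 : c0.val = 0) (h1 : c1.val = 1) (h2 : c2.val = 2)
  (h3 : c3.val = 3) (h4 : c4.val = 4) (hm : 3 ≤ m)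

include h0 h1 h2 h3 h4 hm

/-- All the numerical consequences at once.  Here `s ++ c2 :: t` is the word, `b` is the number of
letters `c3` before the letter `c2`, and `a` is the number of letters `c1` after it. -/
theorem core {s t : List (Fin n)} (F : Facts m c0 c1 c2 c3 c4 (s ++ c2 :: t)) :
    1 ≤ t.count c1 ∧ 1 ≤ s.count c3 ∧ 3 ≤ t.count c1 + s.count c3 ∧
    (t.count c1 = 1 ∨ s.count c3 = 1) ∧
    (∀ u, s ++ c2 :: t = c4 :: u → 2 ≤ s.count c3) ∧
    (∀ u, s ++ c2 :: t = u ++ [c0] → 2 ≤ t.count c1) := by
  have l01 : c0 ≤ c1 := by rw [Fin.le_def]; omega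
  have l12 : c1 ≤ c2 := by rw [Fin.le_def]; omega
  have l23 : c2 ≤ c3 := by rw [Fin.le_def]; omega
  have l34 : c3 ≤ c4 := by rw [Fin.le_def]; omega
  have l13 : c1 ≤ c3 := l12.trans l23
  have d21 : c2 ≠ c1 := by rintro rfl; omega
  have d23 : c2 ≠ c3 := by rintro rfl; omega
  generalize hw : s ++ c2 :: t = w at F
  obtain ⟨n0, n1, n2, n3, n4, f01, f02, f03, f12, f13, f14, f23, f24, f34, -⟩ := F
  -- the position of the letter `c2`
  have hb : P w c3 s.length = s.count c3 := by unfold P; rw [← hw]; simp
  have hwt : w.take (s.length + 1) = s ++ [c2] := by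
    rw [← hw, show s ++ c2 :: t = (s ++ [c2]) ++ t by simp]
    exact List.take_left' (by simp)
  have hwd : w.drop (s.length + 1) = t := by
    rw [← hw, show s ++ c2 :: t = (s ++ [c2]) ++ t by simp]
    exact List.drop_left' (by simp)
  have hb' : P w c3 (s.length + 1) = s.count c3 := by
    unfold P; rw [hwt]; simp [d23]
  have ha : D w c1 (s.length + 1) = t.count c1 := by
    unfold D; rw [hwd]
  have ha' : D w c1 s.length = t.count c1 := by
    unfold D; rw [← hw]; simp [d21]
  have hcs : s.count c2 = 0 ∧ t.count c2 = 0 := by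
    rw [← hw, List.count_append, List.count_cons_self] at n2
    omega
  have hc : P w c2 s.length = 0 := by unfold P; rw [← hw]; simpa using hcs.1
  have hc' : P w c2 (s.length + 1) = 1 := by
    unfold P; rw [hwt]; simp [hcs.1]
  set τ := s.length with hτ
  -- complements
  have A0 : ∀ i, P w c0 i + D w c0 i = m := fun i => by rw [P_add_D]; exact n0
  have A1 : ∀ i, P w c1 i + D w c1 i = m := fun i => by rw [P_add_D]; exact n1
  have A2 : ∀ i, P w c2 i + D w c2 i = 1 := fun i => by rw [P_add_D]; exact n2
  have A3 : ∀ i, P w c3 i + D w c3 i = 3 := fun i => by rw [P_add_D]; exact n3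
  have A4 : ∀ i, P w c4 i + D w c4 i = m := fun i => by rw [P_add_D]; exact n4
  -- basic inequalities
  have q1 : 1 ≤ t.count c1 := by
    have := chain3 w (le_refl c1) (le_refl c1) l12 (le_refl c2) (le_refl τ)
    have e := A1 τ
    have e2 := A2 τ
    rw [f12] at this
    omega
  have q2 : 1 ≤ s.count c3 := by
    have := chain2 w (le_refl c2) l23 (le_refl c3) (τ + 1)
    rw [f23] at this
    have e := A3 (τ + 1)
    omega
  have q3 : 3 ≤ t.count c1 + s.count c3 := by
    have := chain3 w (le_refl c1) l12 l23 (le_refl c3) (Nat.le_succ τ)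
    rw [f13, Nat.succ_eq_add_one] at this
    have e := A1 τ
    have e' := A3 (τ + 1)
    omega
  -- optimal splits
  obtain ⟨i, hi⟩ := exists_split2 w (p := c0) (q := c1) (by omega)
  obtain ⟨j, hj⟩ := exists_split2 w (p := c3) (q := c4) (by omega)
  obtain ⟨r, r', hrr', hr⟩ := exists_split3 w (p := c1) (q := c2) (r := c3) (by omega) (by omega)
  rw [f01] at hi
  rw [f34] at hj
  rw [f13] at hr
  -- either `a + b = 3`, or there is a split without the letter `c2`
  have hcase : t.count c1 + s.count c3 = 3 ∨
      (P w c3 r = 1 ∧ D w c1 r = 1 ∧ j < r ∧ r < i) := by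
    by_cases hz : P w c2 r' ≤ P w c2 r
    · right
      have hr1 : m + 1 ≤ P w c1 r + D w c3 r := by
        have := D_anti w c3 hrr'
        omega
      have hri : r < i := by
        by_contra hcon
        have hir : i ≤ r := by omega
        have := chain3 w (le_refl c0) l01 l13 (le_refl c3) hir
        rw [f03] at this
        have e1 := A1 i
        have e2 := P_mono w c1 hir
        omega
      have hjr : j < r := by
        by_contra hcon
        have hrj : r ≤ j := by omega
        have := chain3 w (le_refl c1) l13 l34 (le_refl c4) hrj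
        rw [f14] at this
        have e1 := A3 r
        have e2 := P_mono w c3 hrj
        omega
      have e1 := A0 i
      have e2 := D_anti w c1 hri.le
      have e3 := A1 r
      have e4 := A3 r
      have e5 := A4 j
      have e6 := P_mono w c3 hjr.le
      exact ⟨by omega, by omega, hjr, hri⟩
    · left
      have hrτ : r ≤ τ := by
        by_contra hcon
        have := P_mono w c2 (show τ + 1 ≤ r by omega)
        have e := A2 r'
        omega
      have hτr : τ + 1 ≤ r' := by
        by_contra hcon
        have := P_mono w c2 (show r' ≤ τ by omega)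
        omega
      have e1 := P_mono w c1 hrτ
      have e2 := D_anti w c3 hτr
      have e3 := A1 τ
      have e4 := A3 (τ + 1)
      have e5 := A2 r'
      omega
  have q4 : t.count c1 = 1 ∨ s.count c3 = 1 := by
    rcases hcase with h | ⟨k1, k2, -, -⟩
    · omega
    · rcases le_total τ r with h | h
      · right
        have := P_mono w c3 h
        omega
      · left
        have := D_anti w c1 h
        omega
  refine ⟨q1, q2, q3, q4, ?_, ?_⟩
  · intro u hu
    by_contra hcon
    have hb1 : s.count c3 = 1 := by omega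
    have hP1 : D w c4 1 ≤ m - 1 := by
      have e := A4 1
      have : P w c4 1 = 1 := by unfold P; rw [hu]; simp
      omega
    have hj0 : 1 ≤ j := by
      by_contra hc0
      have : j = 0 := by omega
      subst this
      have e : P w c3 0 = 0 := by unfold P; simp
      have e' := A4 0
      omega
    have e1 := D_anti w c4 hj0
    have hj2 : 2 ≤ P w c3 j := by omega
    have hτj : τ + 1 ≤ j := by
      by_contra hc0
      have := P_mono w c3 (show j ≤ τ by omega)
      omega
    rcases hcase with h | ⟨k1, k2, k3, k4⟩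
    · have := chain4 w (le_refl c1) l12 l23 l34 (le_refl c4) (Nat.le_succ τ) hτj
      rw [f14, Nat.succ_eq_add_one] at this
      have e2 := A1 τ
      omega
    · have := P_mono w c3 k3.le
      omega
  · intro u hu
    by_contra hcon
    have ha1 : t.count c1 = 1 := by omega
    have hlen : P w c0 u.length ≤ m - 1 := by
      have e : D w c0 u.length = 1 := by unfold D; rw [hu]; simp
      have e' := A0 u.length
      omega
    have hiu : i ≤ u.length := by
      by_contra hc0
      have e : D w c1 i = 0 := by
        unfold D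
        rw [List.drop_eq_nil_of_le]
        · rfl
        · rw [hu]; simp; omega
      have e' := A0 i
      omega
    have e1 := P_mono w c0 hiu
    have hD : 2 ≤ D w c1 i := by omega
    have hiτ : i ≤ τ := by
      by_contra hc0
      have := D_anti w c1 (show τ ≤ i by omega)
      omega
    rcases hcase with h | ⟨k1, k2, k3, k4⟩
    · have := chain4 w (le_refl c0) l01 l12 l23 (le_refl c3) hiτ (Nat.le_succ τ)
      rw [f03, Nat.succ_eq_add_one] at this
      have e2 := A1 i
      have e3 := A1 τ
      have e4 := A3 (τ + 1)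
      have e5 := P_mono w c1 hiτ
      omega
    · have := D_anti w c1 k4.le
      omega

end core

end Pool.Agent.Lib.MP_be768e_al
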