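import Mathlib
import Pool.Agent.Lib.MP_be768e_al.Core

/-!
Closure of the set of words with exactly one `c3` before the `c2` under sharing a first or a last
letter.
-/

namespace Pool.Agent.Lib.MP_be768e_al

variable {n : ℕ}

/-- The grammic equivalence. -/
def Eqv (u v : List (Fin n)) : Prop := ∀ p q : Fin n, p ≤ q → phi u p q = phi v p q

theorem Eqv.refl (u : List (Fin n)) : Eqv u u := fun _ _ _ => rfl

theorem Eqv.symm {u v : List (Fin n)} (h : Eqv u v) : Eqv v u := fun p q hpq => (h p q hpq).symm

theorem Eqv.trans {u v w : List (Fin n)} (h : Eqv u v) (h' : Eqv v w) : Eqv u w :=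
  fun p q hpq => (h p q hpq).trans (h' p q hpq)

theorem Eqv.append {u u' v v' : List (Fin n)} (h : Eqv u u') (h' : Eqv v v') :
    Eqv (u ++ v) (u' ++ v') := phi_append_congr h h'

theorem Eqv.count {u v : List (Fin n)} (h : Eqv u v) (x : Fin n) : u.count x = v.count x := by
  rw [← phi_self, ← phi_self]
  exact h x x le_rfl

theorem Eqv.length {u v : List (Fin n)} (h : Eqv u v) : u.length = v.length :=
  (List.perm_iff_count.mpr h.count).length_eq

theorem phi_cons_le (u : List (Fin n)) {x p q : Fin n} (hx : x < p) (hpq : p ≤ q) :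
    phi (x :: u) p q ≤ phi u p q := by
  obtain ⟨r, h1, h2, h3⟩ := phi_append_le [x] u hpq
  have h4 : phi [x] p r = 0 := by
    have := phi_append_singleton [] x p r
    rw [List.nil_append, if_neg (fun h => absurd (lt_of_lt_of_le hx h.1) (lt_irrefl _)),
      phi_nil] at this
    exact this
  rw [h4, zero_add] at h3
  exact h3.trans (phi_mono (List.Sublist.refl _) h1 le_rfl)

theorem phi_cons_ge (u : List (Fin n)) {x q : Fin n} (hxq : x ≤ q) :
    1 + phi u x q ≤ phi (x :: u) x q := by
  have := phi_append_ge [x] u (le_refl x) hxq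
  rw [phi_self] at this
  simpa using this

section closure

variable {m : ℕ} {c0 c1 c2 c3 c4 : Fin n}

theorem Facts.congr {u v : List (Fin n)} (h : Eqv u v) (F : Facts m c0 c1 c2 c3 c4 u)
    (l01 : c0 ≤ c1) (l12 : c1 ≤ c2) (l23 : c2 ≤ c3) (l34 : c3 ≤ c4) :
    Facts m c0 c1 c2 c3 c4 v where
  n0 := by rw [← h.count]; exact F.n0
  n1 := by rw [← h.count]; exact F.n1
  n2 := by rw [← h.count]; exact F.n2
  n3 := by rw [← h.count]; exact F.n3
  n4 := by rw [← h.count]; exact F.n4
  f01 := by rw [← h _ _ l01]; exact F.f01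
  f02 := by rw [← h _ _ (l01.trans l12)]; exact F.f02
  f03 := by rw [← h _ _ (l01.trans (l12.trans l23))]; exact F.f03
  f12 := by rw [← h _ _ l12]; exact F.f12
  f13 := by rw [← h _ _ (l12.trans l23)]; exact F.f13
  f14 := by rw [← h _ _ (l12.trans (l23.trans l34))]; exact F.f14
  f23 := by rw [← h _ _ l23]; exact F.f23
  f24 := by rw [← h _ _ (l23.trans l34)]; exact F.f24
  f34 := by rw [← h _ _ l34]; exact F.f34
  big := fun x hx => by rw [← h.count]; exact F.big x hx

/-- Exactly one letter `c3` occurs before the first letter `c2`. -/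
def Low (c2 c3 : Fin n) (w : List (Fin n)) : Prop :=
  ∃ s t : List (Fin n), w = s ++ c2 :: t ∧ s.count c3 = 1

theorem exists_decomp {w : List (Fin n)} (F : Facts m c0 c1 c2 c3 c4 w) :
    ∃ s t : List (Fin n), w = s ++ c2 :: t := by
  have : c2 ∈ w := by
    rw [← List.count_pos_iff, F.n2]; exact Nat.one_pos
  exact List.append_of_mem this

/-- Uniqueness of the decomposition. -/
theorem decomp_unique {w s t s' t' : List (Fin n)} (F : Facts m c0 c1 c2 c3 c4 w)
    (e : w = s ++ c2 :: t) (e' : w = s' ++ c2 :: t') : s = s' ∧ t = t' := by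
  have hc : s.count c2 = 0 := by
    have := F.n2
    rw [e, List.count_append, List.count_cons_self] at this
    omega
  have hc' : s'.count c2 = 0 := by
    have := F.n2
    rw [e', List.count_append, List.count_cons_self] at this
    omega
  rw [List.count_eq_zero] at hc hc'
  rw [e] at e'
  rw [List.append_eq_append_iff] at e'
  rcases e' with ⟨a, h1, h2⟩ | ⟨a, h1, h2⟩
  · cases a with
    | nil => simp at h1 h2; exact ⟨h1.symm, h2⟩
    | cons y a =>
      simp at h2
      exfalso
      apply hc'
      rw [h1, h2.1]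
      simp
  · cases a with
    | nil => simp at h1 h2; exact ⟨h1, h2.symm⟩
    | cons y a =>
      simp at h2
      exfalso
      apply hc
      rw [h1, h2.1]
      simp

variable (h0 : c0.val = 0) (h1 : c1.val = 1) (h2 : c2.val = 2)
  (h3 : c3.val = 3) (h4 : c4.val = 4) (hm : 3 ≤ m)

include h0 h1 h2 h3 h4 hm

/-- For `w = c3 :: u` in the class, `w` is low iff `phi u c2 c3 ≥ 3`. -/
theorem low_cons_iff {u : List (Fin n)} (F : Facts m c0 c1 c2 c3 c4 (c3 :: u)) :
    Low c2 c3 (c3 :: u) ↔ 3 ≤ phi u c2 c3 := by
  have l23 : c2 ≤ c3 := by rw [Fin.le_def]; omega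
  have d23 : c3 ≠ c2 := by rintro rfl; omega
  obtain ⟨s, t, hst⟩ := exists_decomp F
  have hlow : Low c2 c3 (c3 :: u) ↔ s.count c3 = 1 := by
    constructor
    · rintro ⟨s', t', e, hc⟩
      rw [(decomp_unique F hst e).1]; exact hc
    · intro hc
      exact ⟨s, t, hst, hc⟩
  rw [hlow]
  cases s with
  | nil => simp at hst; exact absurd hst.1 d23
  | cons y s =>
    rw [List.cons_append, List.cons.injEq] at hst
    obtain ⟨rfl, rfl⟩ := hst
    rw [List.count_cons_self]
    have n2 := F.n2
    have n3 := F.n3
    rw [List.count_cons_of_ne (by exact d23), List.count_append,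
      List.count_cons_self] at n2
    rw [List.count_cons_self, List.count_append, List.count_cons_of_ne (by exact d23.symm)] at n3
    constructor
    · intro hs
      have := phi_append_ge s (c2 :: t) (le_refl c2) l23
      have h5 := phi_cons_ge t l23
      have h6 : t.count c3 ≤ phi t c2 c3 := by
        rw [← phi_self]
        exact phi_mono (List.Sublist.refl _) l23 le_rfl
      omega
    · intro hphi
      by_contra hcon
      obtain ⟨i, hi⟩ := exists_split2 (s ++ c2 :: t) (p := c2) (q := c3) (by omega)
      have e1 := P_add_D (s ++ c2 :: t) c2 i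
      have e2 := P_add_D (s ++ c2 :: t) c3 i
      rw [List.count_append, List.count_cons_self] at e1
      rw [List.count_append, List.count_cons_of_ne (by exact d23.symm)] at e2
      rcases le_total i s.length with hle | hle
      · have e3 := P_mono (s ++ c2 :: t) c2 hle
        have e4 : P (s ++ c2 :: t) c2 s.length = s.count c2 := by unfold P; simp
        omega
      · have e3 := D_anti (s ++ c2 :: t) c3 hle
        have e4 : D (s ++ c2 :: t) c3 s.length = t.count c3 := by
          unfold D; simp [d23.symm]
        omega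

/-- For `w = u ++ [c1]` in the class, `w` is low iff `phi u c1 c2 < m`. -/
theorem low_append_iff {u : List (Fin n)} (F : Facts m c0 c1 c2 c3 c4 (u ++ [c1])) :
    Low c2 c3 (u ++ [c1]) ↔ phi u c1 c2 < m := by
  have l12 : c1 ≤ c2 := by rw [Fin.le_def]; omega
  have d12 : c1 ≠ c2 := by rintro rfl; omega
  obtain ⟨s, t, hst⟩ := exists_decomp F
  have hcore := core h0 h1 h2 h3 h4 hm (s := s) (t := t) (by rw [← hst]; exact F)
  have hlow : Low c2 c3 (u ++ [c1]) ↔ s.count c3 = 1 := by
    constructor
    · rintro ⟨s', t', e, hc⟩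
      rw [(decomp_unique F hst e).1]; exact hc
    · intro hc
      exact ⟨s, t, hst, hc⟩
  rw [hlow]
  have hlow2 : s.count c3 = 1 ↔ 2 ≤ t.count c1 := by omega
  rw [hlow2]
  induction t using List.reverseRecOn with
  | nil => simp at hcore
  | append_singleton t y _ =>
    have hst' : u ++ [c1] = (s ++ c2 :: t) ++ [y] := by rw [hst]; simp
    rw [List.append_singleton_inj] at hst'
    obtain ⟨rfl, rfl⟩ := hst'
    have n1 := F.n1
    have n2 := F.n2
    simp only [List.count_append, List.count_cons_self, List.count_nil,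
      List.count_cons_of_ne (show c2 ≠ c1 from d12.symm)] at n1
    simp only [List.count_append, List.count_cons_self, List.count_nil,
      List.count_cons_of_ne (show c1 ≠ c2 from d12)] at n2
    simp only [List.count_append, List.count_cons_self, List.count_nil]
    constructor
    · intro hs
      obtain ⟨i, hi⟩ := exists_split2 (s ++ c2 :: t) (p := c1) (q := c2) (by omega)
      have e1 := P_add_D (s ++ c2 :: t) c2 i
      have e2 := P_add_D (s ++ c2 :: t) c1 i
      rw [List.count_append, List.count_cons_self] at e1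
      rw [List.count_append, List.count_cons_of_ne (show c2 ≠ c1 from d12.symm)] at e2
      rcases le_total i s.length with hle | hle
      · have e3 := P_mono (s ++ c2 :: t) c1 hle
        have e4 : P (s ++ c2 :: t) c1 s.length = s.count c1 := by unfold P; simp
        omega
      · rcases Nat.lt_or_ge s.length i with hlt | hge
        · have e3 := D_anti (s ++ c2 :: t) c2 (show s.length + 1 ≤ i by omega)
          have e4 : D (s ++ c2 :: t) c2 (s.length + 1) = t.count c2 := by
            unfold D
            rw [show s ++ c2 :: t = (s ++ [c2]) ++ t by simp, List.drop_left' (by simp)]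
          omega
        · have hi' : i = s.length := by omega
          subst hi'
          have e4 : P (s ++ c2 :: t) c1 s.length = s.count c1 := by unfold P; simp
          omega
    · intro hphi
      by_contra hcon
      have e1 := phi_append_ge s (c2 :: t) l12 (le_refl c2)
      have e2 : s.count c1 ≤ phi s c1 c2 := by
        rw [← phi_self]
        exact phi_mono (List.Sublist.refl _) le_rfl l12
      rw [phi_self, List.count_cons_self] at e1
      omega

theorem low_left {x : Fin n} {u v : List (Fin n)} (F : Facts m c0 c1 c2 c3 c4 (x :: u))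
    (huv : Eqv u v) (hl : Low c2 c3 (x :: u)) : Low c2 c3 (x :: v) := by
  have l01 : c0 ≤ c1 := by rw [Fin.le_def]; omega
  have l12 : c1 ≤ c2 := by rw [Fin.le_def]; omega
  have l23 : c2 ≤ c3 := by rw [Fin.le_def]; omega
  have l34 : c3 ≤ c4 := by rw [Fin.le_def]; omega
  have l13 : c1 ≤ c3 := l12.trans l23
  have F' : Facts m c0 c1 c2 c3 c4 (x :: v) :=
    Facts.congr (Eqv.append (Eqv.refl [x]) huv) F l01 l12 l23 l34
  have hx : x.val < 5 := by
    by_contra hcon
    have := F.big x (by omega)
    rw [List.count_cons_self] at this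
    omega
  have hx' : x = c0 ∨ x = c1 ∨ x = c2 ∨ x = c3 ∨ x = c4 := by
    have : x.val = 0 ∨ x.val = 1 ∨ x.val = 2 ∨ x.val = 3 ∨ x.val = 4 := by omega
    rcases this with h | h | h | h | h
    · left; exact Fin.ext (by omega)
    · right; left; exact Fin.ext (by omega)
    · right; right; left; exact Fin.ext (by omega)
    · right; right; right; left; exact Fin.ext (by omega)
    · right; right; right; right; exact Fin.ext (by omega)
  rcases hx' with rfl | rfl | rfl | rfl | rfl
  · exfalso
    have e1 := phi_cons_le u (show x < c1 by rw [Fin.lt_def]; omega) l13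
    have e2 := phi_cons_ge u (show x ≤ c3 from l01.trans l13)
    have e3 : phi u c1 c3 ≤ phi u x c3 := phi_mono (List.Sublist.refl _) l01 le_rfl
    have e4 := F.f13
    have e5 := F.f03
    omega
  · exfalso
    have e1 := phi_cons_le u (show x < c3 by rw [Fin.lt_def]; omega) l34
    have e2 := phi_cons_ge u (show x ≤ c4 from l13.trans l34)
    have e3 : phi u c3 c4 ≤ phi u x c4 := phi_mono (List.Sublist.refl _) l13 le_rfl
    have e4 := F.f34
    have e5 := F.f14
    omega
  · exfalso
    have e1 := phi_cons_le u (show x < c3 by rw [Fin.lt_def]; omega) l34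
    have e2 := phi_cons_ge u (show x ≤ c4 from l23.trans l34)
    have e3 : phi u c3 c4 ≤ phi u x c4 := phi_mono (List.Sublist.refl _) l23 le_rfl
    have e4 := F.f34
    have e5 := F.f24
    omega
  · rw [low_cons_iff h0 h1 h2 h3 h4 hm F] at hl
    rw [low_cons_iff h0 h1 h2 h3 h4 hm F', ← huv _ _ l23]
    exact hl
  · exfalso
    obtain ⟨s, t, e, hc⟩ := hl
    have := (core h0 h1 h2 h3 h4 hm (s := s) (t := t) (by rw [← e]; exact F)).2.2.2.2.1 u e.symm
    omega

theorem low_right {x : Fin n} {u v : List (Fin n)} (F : Facts m c0 c1 c2 c3 c4 (u ++ [x]))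
    (huv : Eqv u v) (hl : Low c2 c3 (u ++ [x])) : Low c2 c3 (v ++ [x]) := by
  have l01 : c0 ≤ c1 := by rw [Fin.le_def]; omega
  have l12 : c1 ≤ c2 := by rw [Fin.le_def]; omega
  have l23 : c2 ≤ c3 := by rw [Fin.le_def]; omega
  have l34 : c3 ≤ c4 := by rw [Fin.le_def]; omega
  have l13 : c1 ≤ c3 := l12.trans l23
  have F' : Facts m c0 c1 c2 c3 c4 (v ++ [x]) :=
    Facts.congr (Eqv.append huv (Eqv.refl [x])) F l01 l12 l23 l34
  have hx : x.val < 5 := by
    by_contra hcon
    have := F.big x (by omega)
    rw [List.count_append, List.count_singleton_self] at this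
    omega
  have hx' : x = c0 ∨ x = c1 ∨ x = c2 ∨ x = c3 ∨ x = c4 := by
    have : x.val = 0 ∨ x.val = 1 ∨ x.val = 2 ∨ x.val = 3 ∨ x.val = 4 := by omega
    rcases this with h | h | h | h | h
    · left; exact Fin.ext (by omega)
    · right; left; exact Fin.ext (by omega)
    · right; right; left; exact Fin.ext (by omega)
    · right; right; right; left; exact Fin.ext (by omega)
    · right; right; right; right; exact Fin.ext (by omega)
  rcases hx' with rfl | rfl | rfl | rfl | rfl
  · obtain ⟨s, t, e⟩ := exists_decomp F'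
    have hcore := core h0 h1 h2 h3 h4 hm (s := s) (t := t) (by rw [← e]; exact F')
    have := hcore.2.2.2.2.2 v e.symm
    exact ⟨s, t, e, by omega⟩
  · rw [low_append_iff h0 h1 h2 h3 h4 hm F] at hl
    rw [low_append_iff h0 h1 h2 h3 h4 hm F', ← huv _ _ l12]
    exact hl
  · exfalso
    have e1 := phi_append_singleton u x c0 x
    rw [if_pos ⟨l01.trans l12, le_rfl⟩] at e1
    have e2 := phi_append_singleton u x c0 c1
    rw [if_neg (by rw [Fin.le_def, Fin.le_def]; omega)] at e2
    have e3 : phi u c0 c1 ≤ phi u c0 x := phi_mono (List.Sublist.refl _) le_rfl l12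
    have e4 := F.f01
    have e5 := F.f02
    have e6 := le_max_right (phi u c0 x) (phi u c0 x + 1)
    omega
  · exfalso
    have e1 := phi_append_singleton u x c0 x
    rw [if_pos ⟨l01.trans l13, le_rfl⟩] at e1
    have e2 := phi_append_singleton u x c0 c1
    rw [if_neg (by rw [Fin.le_def, Fin.le_def]; omega)] at e2
    have e3 : phi u c0 c1 ≤ phi u c0 x := phi_mono (List.Sublist.refl _) le_rfl l13
    have e4 := F.f01
    have e5 := F.f03
    have e6 := le_max_right (phi u c0 x) (phi u c0 x + 1)
    omega
  · exfalso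
    have e1 := phi_append_singleton u x c1 x
    rw [if_pos ⟨l13.trans l34, le_rfl⟩] at e1
    have e2 := phi_append_singleton u x c1 c3
    rw [if_neg (by rw [Fin.le_def, Fin.le_def]; omega)] at e2
    have e3 : phi u c1 c3 ≤ phi u c1 x := phi_mono (List.Sublist.refl _) le_rfl l34
    have e4 := F.f13
    have e5 := F.f14
    have e6 := le_max_right (phi u c1 x) (phi u c1 x + 1)
    omega

end closure

end Pool.Agent.Lib.MP_be768e_al
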