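import Mathlib
import Pool.Agent.Lib.MP_be768e_al.Phi

/-!
The grammic congruence, the grammic monoid, and finite presentability of monoids.
-/

namespace Pool.Agent.Lib.MP_be768e_al

/-- The grammic congruence on the free monoid over the alphabet `Fin n`: two words are related iff
they have the same value of `phi` on all intervals `[p, q]` of letters. -/
def gramCon (n : ℕ) : Con (FreeMonoid (Fin n)) where
  r u v := ∀ p q : Fin n, p ≤ q →
    phi (FreeMonoid.toList u) p q = phi (FreeMonoid.toList v) p q
  iseqv := ⟨fun _ _ _ _ => rfl, fun h p q hpq => (h p q hpq).symm,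
    fun h h' p q hpq => (h p q hpq).trans (h' p q hpq)⟩
  mul' h h' p q hpq := by
    rw [FreeMonoid.toList_mul, FreeMonoid.toList_mul]
    exact phi_append_congr h h' p q hpq

/-- The grammic monoid of rank `n`. -/
abbrev GrammicMonoid (n : ℕ) : Type := (gramCon n).Quotient

/-- A monoid is finitely presented if it is isomorphic to the monoid given by a finite set `A` of
generators and a finite set `R` of defining relations. -/
def FinPres (M : Type) [Monoid M] : Prop :=
  ∃ (A : Type) (_ : Finite A) (R : Set (FreeMonoid A × FreeMonoid A)), R.Finite ∧
    Nonempty (PresentedMonoid (fun u v => (u, v) ∈ R) ≃* M)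

end Pool.Agent.Lib.MP_be768e_al
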