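import Mathlib
import Pool.Agent.Lib.MP_be768e_al.Closure

/-!
Two explicit families of words which are grammically equivalent.
-/

namespace Pool.Agent.Lib.MP_be768e_al

variable {n : ℕ}

theorem phi_append_replicate (w : List (Fin n)) (k : ℕ) (x p q : Fin n) :
    phi (w ++ List.replicate k x) p q =
      if p ≤ x ∧ x ≤ q then max (phi w p q) (phi w p x + k) else phi w p q := by
  induction k generalizing q with
  | zero =>
    simp only [List.replicate_zero, List.append_nil, add_zero]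
    split_ifs with h
    · exact (max_eq_left (phi_mono (List.Sublist.refl _) le_rfl h.2)).symm
    · rfl
  | succ k ih =>
    rw [List.replicate_succ', ← List.append_assoc, phi_append_singleton, ih q, ih x]
    by_cases h : p ≤ x ∧ x ≤ q
    · rw [if_pos h, if_pos h, if_pos h, if_pos ⟨h.1, le_rfl⟩]
      omega
    · rw [if_neg h, if_neg h, if_neg h]

/-- The word with the given blocks (last block first). -/
def W : List (Fin n × ℕ) → List (Fin n)
  | [] => []
  | (x, k) :: bs => W bs ++ List.replicate k x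

/-- Numerical computation of `phi` on block words. -/
def G : List (ℕ × ℕ) → ℕ → ℕ → ℕ
  | [], _, _ => 0
  | (x, k) :: bs, p, q => if p ≤ x ∧ x ≤ q then max (G bs p q) (G bs p x + k) else G bs p q

theorem phi_W (bs : List (Fin n × ℕ)) (p q : Fin n) :
    phi (W bs) p q = G (bs.map (fun b => (b.1.val, b.2))) p.val q.val := by
  induction bs generalizing q with
  | nil => simp [W, G]
  | cons b bs ih =>
    obtain ⟨x, k⟩ := b
    rw [W, phi_append_replicate, ih q, ih x]
    rfl

theorem W_count_big (bs : List (Fin n × ℕ)) (x : Fin n) (h : ∀ b ∈ bs, b.1 ≠ x) :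
    (W bs).count x = 0 := by
  induction bs with
  | nil => simp [W]
  | cons b bs ih =>
    obtain ⟨y, k⟩ := b
    rw [W, List.count_append, ih (fun b hb => h b (by simp [hb])), List.count_replicate]
    have : y ≠ x := h (y, k) (by simp)
    simp [this]

/-- The first family: `4 3 5^m 2^(m-1) 4^2 1^m 2` (with letters numbered from `1`). -/
def blA (m : ℕ) (c0 c1 c2 c3 c4 : Fin n) : List (Fin n × ℕ) :=
  [(c1, 1), (c0, m), (c3, 2), (c1, m - 1), (c4, m), (c2, 1), (c3, 1)]

/-- The second family: `5 4^2 5^(m-1) 2^(m-1) 3 4 1^m 2` (with letters numbered from `1`). -/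
def blB (m : ℕ) (c0 c1 c2 c3 c4 : Fin n) : List (Fin n × ℕ) :=
  [(c1, 1), (c0, m), (c3, 1), (c2, 1), (c1, m - 1), (c4, m - 1), (c3, 2), (c4, 1)]

theorem G_eq (m : ℕ) (hm : 3 ≤ m) (p q : ℕ) :
    G [(1, 1), (0, m), (3, 2), (1, m - 1), (4, m), (2, 1), (3, 1)] p q =
    G [(1, 1), (0, m), (3, 1), (2, 1), (1, m - 1), (4, m - 1), (3, 2), (4, 1)] p q := by
  obtain hp | hp : p < 5 ∨ 5 ≤ p := by omega
  · obtain hq | hq : q < 5 ∨ 5 ≤ q := by omega
    · interval_cases p <;> interval_cases q <;> simp [G] <;> omega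
    · have q0 : 0 ≤ q := by omega
      have q1 : 1 ≤ q := by omega
      have q2 : 2 ≤ q := by omega
      have q3 : 3 ≤ q := by omega
      have q4 : 4 ≤ q := by omega
      interval_cases p <;> simp [G, q1, q2, q3, q4] <;> omega
  · have p0 : ¬ p ≤ 0 := by omega
    have p1 : ¬ p ≤ 1 := by omega
    have p2 : ¬ p ≤ 2 := by omega
    have p3 : ¬ p ≤ 3 := by omega
    have p4 : ¬ p ≤ 4 := by omega
    simp [G, p1, p2, p3, p4]

section words

variable {m : ℕ} {c0 c1 c2 c3 c4 : Fin n} (h0 : c0.val = 0) (h1 : c1.val = 1) (h2 : c2.val = 2)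
  (h3 : c3.val = 3) (h4 : c4.val = 4) (hm : 3 ≤ m)

include h0 h1 h2 h3 h4 hm

theorem eqv_words : Eqv (W (blA m c0 c1 c2 c3 c4)) (W (blB m c0 c1 c2 c3 c4)) := by
  intro p q _
  rw [phi_W, phi_W]
  simp only [blA, blB, List.map_cons, List.map_nil, h0, h1, h2, h3, h4]
  exact G_eq m hm p.val q.val

theorem facts_wordA : Facts m c0 c1 c2 c3 c4 (W (blA m c0 c1 c2 c3 c4)) := by
  constructor
  · rw [← phi_self, phi_W]; simp [blA, G, h0, h1, h2, h3, h4]
  · rw [← phi_self, phi_W]; simp [blA, G, h0, h1, h2, h3, h4]; omega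
  · rw [← phi_self, phi_W]; simp [blA, G, h0, h1, h2, h3, h4]
  · rw [← phi_self, phi_W]; simp [blA, G, h0, h1, h2, h3, h4]
  · rw [← phi_self, phi_W]; simp [blA, G, h0, h1, h2, h3, h4]
  · rw [phi_W]; simp [blA, G, h0, h1, h2, h3, h4]
  · rw [phi_W]; simp [blA, G, h0, h1, h2, h3, h4]
  · rw [phi_W]; simp [blA, G, h0, h1, h2, h3, h4]; omega
  · rw [phi_W]; simp [blA, G, h0, h1, h2, h3, h4]; omega
  · rw [phi_W]; simp [blA, G, h0, h1, h2, h3, h4]; omega
  · rw [phi_W]; simp [blA, G, h0, h1, h2, h3, h4]; omega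
  · rw [phi_W]; simp [blA, G, h0, h1, h2, h3, h4]
  · rw [phi_W]; simp [blA, G, h0, h1, h2, h3, h4]; omega
  · rw [phi_W]; simp [blA, G, h0, h1, h2, h3, h4]; omega
  · intro x hx
    apply W_count_big
    intro b hb hbx
    simp only [blA, List.mem_cons, List.not_mem_nil, or_false] at hb
    have hv : b.1.val = x.val := by rw [hbx]
    rcases hb with rfl | rfl | rfl | rfl | rfl | rfl | rfl <;> simp only at hv <;> omega

theorem low_wordA : Low c2 c3 (W (blA m c0 c1 c2 c3 c4)) := by
  refine ⟨[c3], List.replicate m c4 ++ (List.replicate (m - 1) c1 ++ (List.replicate 2 c3 ++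
    (List.replicate m c0 ++ [c1]))), ?_, by simp⟩
  simp [W, blA]

theorem not_low_wordB : ¬ Low c2 c3 (W (blB m c0 c1 c2 c3 c4)) := by
  have l01 : c0 ≤ c1 := by rw [Fin.le_def]; omega
  have l12 : c1 ≤ c2 := by rw [Fin.le_def]; omega
  have l23 : c2 ≤ c3 := by rw [Fin.le_def]; omega
  have l34 : c3 ≤ c4 := by rw [Fin.le_def]; omega
  have F : Facts m c0 c1 c2 c3 c4 (W (blB m c0 c1 c2 c3 c4)) :=
    Facts.congr (eqv_words h0 h1 h2 h3 h4 hm) (facts_wordA h0 h1 h2 h3 h4 hm) l01 l12 l23 l34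
  rintro ⟨s, t, e, hc⟩
  have e' : W (blB m c0 c1 c2 c3 c4) = (c4 :: c3 :: c3 :: (List.replicate (m - 1) c4 ++
      List.replicate (m - 1) c1)) ++ c2 :: (c3 :: (List.replicate m c0 ++ [c1])) := by
    simp [W, blB, List.replicate_succ]
  rw [(decomp_unique F e e').1] at hc
  simp [List.count_cons] at hc
  omega

end words

end Pool.Agent.Lib.MP_be768e_al
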