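import Mathlib
import Pool.Agent.Lib.MP_be768e_al.Words
import Pool.Agent.Lib.MP_be768e_al.Gram

/-!
The grammic monoid of rank at least five is not finitely presented.
-/

namespace Pool.Agent.Lib.MP_be768e_al

section main

variable {n m : ℕ} {c0 c1 c2 c3 c4 : Fin n}

/-- The relation refining the grammic congruence on one class. -/
def Rho (m : ℕ) (c0 c1 c2 c3 c4 : Fin n) (u v : List (Fin n)) : Prop :=
  Eqv u v ∧ (Facts m c0 c1 c2 c3 c4 u → (Low c2 c3 u ↔ Low c2 c3 v))

variable (h0 : c0.val = 0) (h1 : c1.val = 1) (h2 : c2.val = 2)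
  (h3 : c3.val = 3) (h4 : c4.val = 4) (hm : 3 ≤ m)

include h0 h1 h2 h3 h4

theorem facts_congr {u v : List (Fin n)} (h : Eqv u v) (F : Facts m c0 c1 c2 c3 c4 u) :
    Facts m c0 c1 c2 c3 c4 v :=
  Facts.congr h F (by rw [Fin.le_def]; omega) (by rw [Fin.le_def]; omega)
    (by rw [Fin.le_def]; omega) (by rw [Fin.le_def]; omega)

include hm

theorem rho_left {u v : List (Fin n)} (h : Rho m c0 c1 c2 c3 c4 u v) (s : List (Fin n))
    (F : Facts m c0 c1 c2 c3 c4 (s ++ u)) : Low c2 c3 (s ++ u) ↔ Low c2 c3 (s ++ v) := by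
  cases s with
  | nil => exact h.2 F
  | cons x s =>
    have e : Eqv (s ++ u) (s ++ v) := Eqv.append (Eqv.refl s) h.1
    have e' : Eqv (x :: (s ++ u)) (x :: (s ++ v)) := Eqv.append (Eqv.refl [x]) e
    exact ⟨low_left h0 h1 h2 h3 h4 hm F e,
      low_left h0 h1 h2 h3 h4 hm (facts_congr h0 h1 h2 h3 h4 e' F) e.symm⟩

theorem rho_right {u v : List (Fin n)} (h : Rho m c0 c1 c2 c3 c4 u v) (s : List (Fin n))
    (F : Facts m c0 c1 c2 c3 c4 (u ++ s)) : Low c2 c3 (u ++ s) ↔ Low c2 c3 (v ++ s) := by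
  rcases List.eq_nil_or_concat s with rfl | ⟨t, x, rfl⟩
  · simpa using h.2 (by simpa using F)
  · have e : Eqv (u ++ t) (v ++ t) := Eqv.append h.1 (Eqv.refl t)
    have e' : Eqv ((u ++ t) ++ [x]) ((v ++ t) ++ [x]) := Eqv.append e (Eqv.refl [x])
    rw [List.concat_eq_append, ← List.append_assoc] at F
    rw [List.concat_eq_append, ← List.append_assoc, ← List.append_assoc]
    exact ⟨low_right h0 h1 h2 h3 h4 hm F e,
      low_right h0 h1 h2 h3 h4 hm (facts_congr h0 h1 h2 h3 h4 e' F) e.symm⟩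

/-- The refined congruence. -/
def rhoCon : Con (FreeMonoid (Fin n)) where
  r u v := Rho m c0 c1 c2 c3 c4 (FreeMonoid.toList u) (FreeMonoid.toList v)
  iseqv := by
    refine ⟨fun u => ⟨Eqv.refl _, fun _ => Iff.rfl⟩, ?_, ?_⟩
    · intro u v h
      exact ⟨h.1.symm, fun F => (h.2 (facts_congr h0 h1 h2 h3 h4 h.1.symm F)).symm⟩
    · intro u v w h h'
      exact ⟨h.1.trans h'.1, fun F => (h.2 F).trans
        (h'.2 (facts_congr h0 h1 h2 h3 h4 h.1 F))⟩
  mul' := by
    intro u v u' v' h h'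
    refine ⟨Eqv.append h.1 h'.1, fun F => ?_⟩
    have e1 := rho_right h0 h1 h2 h3 h4 hm h _ F
    have e2 := rho_left h0 h1 h2 h3 h4 hm h' _
      (facts_congr h0 h1 h2 h3 h4 (Eqv.append h.1 (Eqv.refl _)) F)
    exact e1.trans e2

end main

/-- No finite set of pairs generates the grammic congruence of rank at least five. -/
theorem not_finitely_generated (n : ℕ) (hn : 5 ≤ n)
    (R : Set (FreeMonoid (Fin n) × FreeMonoid (Fin n))) (hR : R.Finite) :
    conGen (fun u v => (u, v) ∈ R) ≠ gramCon n := by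
  intro heq
  obtain ⟨l, hl⟩ := (hR.image (fun p => (FreeMonoid.toList p.1).length)).bddAbove
  have hl' : ∀ p ∈ R, (FreeMonoid.toList p.1).length ≤ l := fun p hp => hl ⟨p, hp, rfl⟩
  set c0 : Fin n := ⟨0, by omega⟩
  set c1 : Fin n := ⟨1, by omega⟩
  set c2 : Fin n := ⟨2, by omega⟩
  set c3 : Fin n := ⟨3, by omega⟩
  set c4 : Fin n := ⟨4, by omega⟩
  have h0 : c0.val = 0 := rfl
  have h1 : c1.val = 1 := rfl
  have h2 : c2.val = 2 := rfl
  have h3 : c3.val = 3 := rfl
  have h4 : c4.val = 4 := rfl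
  have hm : 3 ≤ l + 3 := by omega
  have hle : conGen (fun u v => (u, v) ∈ R) ≤ rhoCon (m := l + 3) h0 h1 h2 h3 h4 hm := by
    rw [Con.conGen_le]
    intro u v huv
    have hg : gramCon n u v := by
      rw [← heq]
      exact ConGen.Rel.of u v huv
    refine ⟨hg, fun F => ?_⟩
    exfalso
    have e1 := F.n0
    have e2 : (FreeMonoid.toList u).count c0 ≤ (FreeMonoid.toList u).length :=
      List.count_le_length
    have e3 := hl' (u, v) huv
    simp only at e3
    omega
  rw [heq] at hle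
  have hAB : gramCon n (FreeMonoid.ofList (W (blA (l + 3) c0 c1 c2 c3 c4)))
      (FreeMonoid.ofList (W (blB (l + 3) c0 c1 c2 c3 c4))) :=
    eqv_words h0 h1 h2 h3 h4 hm
  have hrho := hle hAB
  exact not_low_wordB h0 h1 h2 h3 h4 hm
    ((hrho.2 (facts_wordA h0 h1 h2 h3 h4 hm)).1 (low_wordA h0 h1 h2 h3 h4 hm))

/-- Finite presentability does not depend on the choice of finite generating set. -/
theorem con_of_finPres {B : Type} [Finite B] (c : Con (FreeMonoid B)) (h : FinPres c.Quotient) :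
    ∃ S : Set (FreeMonoid B × FreeMonoid B), S.Finite ∧ conGen (fun u v => (u, v) ∈ S) = c := by
  obtain ⟨A, _, R, hR, ⟨e⟩⟩ := h
  let ψ : FreeMonoid A →* c.Quotient := e.toMonoidHom.comp (PresentedMonoid.mk _)
  have hψs : Function.Surjective ψ := by
    intro x
    obtain ⟨y, rfl⟩ := e.surjective x
    obtain ⟨z, rfl⟩ := Quotient.exists_rep y
    exact ⟨z, rfl⟩
  have hψk : ∀ u v, ψ u = ψ v ↔ conGen (fun u v => (u, v) ∈ R) u v := by
    intro u v
    have : ψ u = ψ v ↔ PresentedMonoid.mk (fun u v => (u, v) ∈ R) u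
        = PresentedMonoid.mk (fun u v => (u, v) ∈ R) v := e.injective.eq_iff
    rw [this]
    exact Con.eq _
  let π : FreeMonoid B →* c.Quotient := c.mk'
  have hπs : Function.Surjective π := Con.mk'_surjective
  have hπk : ∀ u v, π u = π v ↔ c u v := fun u v => Con.eq _
  choose α hα using fun a : A => hπs (ψ (FreeMonoid.of a))
  choose β hβ using fun b : B => hψs (π (FreeMonoid.of b))
  let α' := FreeMonoid.lift α
  let β' := FreeMonoid.lift β
  have hα' : ∀ u, π (α' u) = ψ u := by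
    intro u
    have : π.comp α' = ψ := by
      apply FreeMonoid.hom_eq
      intro a
      simp [α', hα]
    exact DFunLike.congr_fun this u
  have hβ' : ∀ u, ψ (β' u) = π u := by
    intro u
    have : ψ.comp β' = π := by
      apply FreeMonoid.hom_eq
      intro a
      simp [β', hβ]
    exact DFunLike.congr_fun this u
  let S : Set (FreeMonoid B × FreeMonoid B) :=
    (fun p => (α' p.1, α' p.2)) '' R ∪ Set.range (fun b => (FreeMonoid.of b, α' (β b)))
  refine ⟨S, (hR.image _).union (Set.finite_range _), ?_⟩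
  apply le_antisymm
  · rw [Con.conGen_le]
    rintro u v (⟨⟨a, b⟩, hab, heq⟩ | ⟨b, heq⟩)
    · simp only [Prod.mk.injEq] at heq
      obtain ⟨rfl, rfl⟩ := heq
      rw [← hπk, hα', hα', hψk]
      exact ConGen.Rel.of _ _ hab
    · simp only [Prod.mk.injEq] at heq
      obtain ⟨rfl, rfl⟩ := heq
      rw [← hπk, hα', hβ]
  · intro u v huv
    rw [← hπk, ← hβ', ← hβ', hψk] at huv
    let θ : FreeMonoid B →* (conGen (fun u v => (u, v) ∈ S)).Quotient := Con.mk' _
    have hθ : ∀ u, θ (α' (β' u)) = θ u := by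
      intro u
      have : (θ.comp α').comp β' = θ := by
        apply FreeMonoid.hom_eq
        intro b
        have hb : θ (FreeMonoid.of b) = θ (α' (β b)) :=
          (Con.eq _).2 (ConGen.Rel.of _ _ (Or.inr ⟨b, rfl⟩))
        simp only [MonoidHom.comp_apply, hb]
        simp [β']
      exact DFunLike.congr_fun this u
    have hker : conGen (fun u v => (u, v) ∈ R) ≤ Con.ker (θ.comp α') := by
      rw [Con.conGen_le]
      intro a b hab
      rw [Con.ker_rel]
      exact (Con.eq _).2 (ConGen.Rel.of _ _ (Or.inl ⟨(a, b), hab, rfl⟩))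
    have h1 := hker huv
    rw [Con.ker_rel] at h1
    simp only [MonoidHom.comp_apply] at h1
    rw [hθ, hθ] at h1
    exact (Con.eq _).1 h1

theorem not_finPres (n : ℕ) (hn : 5 ≤ n) : ¬ FinPres (GrammicMonoid n) := by
  intro h
  obtain ⟨S, hS, heq⟩ := con_of_finPres (gramCon n) h
  exact not_finitely_generated n hn S hS heq

end Pool.Agent.Lib.MP_be768e_al
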